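import Pool.Agent.H88.L.W476.TP.Stm

/-!
# Project TP: basic lemmas
-/

set_option autoImplicit false

namespace Pool.Agent.W476.TP

open MvPolynomial

variable {r n : ℕ} {m : Fin r → ℕ} {K : Type} [Field K]

theorem eval_gz (G : Polynomial (MvPolynomial (Sig m) K)) (i : Fin (n + 1)) (y : Sig m → K)
    (z : Fin (n + 1) → K) : eval (Sum.elim y z) (gz G i) = ev G y (z i) := by
  unfold gz ev
  rw [Polynomial.eval₂_eq_sum_range, map_sum, Polynomial.eval_map, Polynomial.eval₂_eq_sum_range]
  refine Finset.sum_congr rfl fun k _ => ?_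
  rw [map_mul, map_pow, eval_X, Sum.elim_inr]
  congr 1
  change eval (Sum.elim y z) (rename Sum.inl (G.coeff k)) = _
  rw [eval_rename, Sum.elim_comp_inl]

theorem rename_hom {F : MvPolynomial (Sig m) K} {d : Fin r → ℕ} (hF : MH F d) (D : Fin r → ℕ)
    (n : ℕ) : IsWeightedHomogeneous (wt2 m D n) (rename Sum.inl F) d := by
  classical
  unfold MH at hF
  rw [← hF.weightedHomogeneousComponent_same]
  rw [weightedHomogeneousComponent_apply, map_sum]
  refine IsWeightedHomogeneous.sum _ _ _ fun α hα => ?_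
  rw [rename_monomial]
  refine isWeightedHomogeneous_monomial _ _ _ ?_
  have h1 : Finsupp.weight (wt m) α = d := (Finset.mem_filter.1 hα).2
  rw [← h1, Finsupp.weight_apply, Finsupp.weight_apply, Finsupp.sum_mapDomain_index]
  · rfl
  · intro b; exact zero_smul _ _
  · intro b u v; exact add_smul _ _ _

theorem gz_hom {D : Fin r → ℕ} {G : Polynomial (MvPolynomial (Sig m) K)} {t : ℕ}
    (hG : MonicMH D G t) (i : Fin (n + 1)) :
    IsWeightedHomogeneous (wt2 m D n) (gz G i) (t • D) := by
  unfold gz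
  rw [Polynomial.eval₂_eq_sum_range]
  refine IsWeightedHomogeneous.sum _ _ _ fun k hk => ?_
  have hk' : k ≤ t := by
    rw [Finset.mem_range, hG.2.2.1] at hk; omega
  have h1 := rename_hom (hG.2.2.2 k hk') D n
  have h2 : IsWeightedHomogeneous (wt2 m D n) (X (Sum.inr i) ^ k :
      MvPolynomial (Sig m ⊕ Fin (n + 1)) K) (k • D) := by
    have := (isWeightedHomogeneous_X K (wt2 m D n) (Sum.inr i)).pow k
    simpa [wt2] using this
  have h3 := h1.mul h2
  have h4 : (t - k) • D + k • D = t • D := by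
    rw [← add_smul, Nat.sub_add_cancel hk']
  rw [h4] at h3
  exact h3

/-- scaling by `lam κ` in the `κ`-th group -/
def scl (lam : Fin r → K) (y : Sig m → K) : Sig m → K := fun i => lam i.1 * y i

/-- the scalar `∏ κ, lam κ ^ d κ` -/
def sp (lam : Fin r → K) (d : Fin r → ℕ) : K := ∏ κ, lam κ ^ d κ

theorem sp_add (lam : Fin r → K) (d e : Fin r → ℕ) : sp lam (d + e) = sp lam d * sp lam e := by
  simp [sp, pow_add, Finset.prod_mul_distrib]

theorem sp_zero (lam : Fin r → K) : sp lam 0 = 1 := by simp [sp]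

theorem sp_nsmul (lam : Fin r → K) (k : ℕ) (d : Fin r → ℕ) : sp lam (k • d) = sp lam d ^ k := by
  unfold sp
  rw [← Finset.prod_pow]
  refine Finset.prod_congr rfl fun κ _ => ?_
  rw [Pi.smul_apply, smul_eq_mul, mul_comm, pow_mul]

theorem sp_single (lam : Fin r → K) (κ : Fin r) (k : ℕ) : sp lam (Pi.single κ k) = lam κ ^ k := by
  unfold sp
  rw [Finset.prod_eq_single κ]
  · simp
  · intro b _ hb; simp [Pi.single_eq_of_ne hb]
  · simp

theorem sp_ne_zero {lam : Fin r → K} (h : ∀ κ, lam κ ≠ 0) (d : Fin r → ℕ) : sp lam d ≠ 0 :=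
  Finset.prod_ne_zero_iff.2 fun κ _ => pow_ne_zero _ (h κ)

theorem eval_scale {σ : Type} [Fintype σ] (w : σ → Fin r → ℕ) {F : MvPolynomial σ K}
    {δ : Fin r → ℕ} (hF : IsWeightedHomogeneous w F δ) (lam : Fin r → K) (x : σ → K) :
    eval (fun i => sp lam (w i) * x i) F = sp lam δ * eval x F := by
  rw [eval_eq', eval_eq', Finset.mul_sum]
  refine Finset.sum_congr rfl fun α hα => ?_
  have h1 : Finsupp.weight w α = δ := hF (mem_support_iff.1 hα)
  have h2 : sp lam δ = ∏ i, sp lam (w i) ^ α i := by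
    rw [← h1, Finsupp.weight_apply, Finsupp.sum_fintype _ _ (fun i => by exact zero_smul ℕ _)]
    classical
    have : ∀ s : Finset σ, sp lam (∑ i ∈ s, α i • w i) = ∏ i ∈ s, sp lam (w i) ^ α i := by
      intro s
      induction s using Finset.induction_on with
      | empty => simp [sp_zero]
      | insert a s ha ih => rw [Finset.sum_insert ha, Finset.prod_insert ha, sp_add, sp_nsmul, ih]
    exact this _
  rw [h2]
  simp only [mul_pow, Finset.prod_mul_distrib]
  ring

theorem eval_scl {F : MvPolynomial (Sig m) K} {d : Fin r → ℕ} (hF : MH F d) (lam : Fin r → K)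
    (y : Sig m → K) : eval (scl lam y) F = sp lam d * eval y F := by
  have h := eval_scale (wt m) hF lam y
  rw [← h]
  congr 1
  refine congrArg _ ?_
  funext i
  simp [scl, wt, sp_single]

theorem eval_scl2 {D : Fin r → ℕ} {F : MvPolynomial (Sig m ⊕ Fin (n + 1)) K} {δ : Fin r → ℕ}
    (hF : IsWeightedHomogeneous (wt2 m D n) F δ) (lam : Fin r → K)
    (y : Sig m → K) (z : Fin (n + 1) → K) :
    eval (Sum.elim (scl lam y) (fun i => sp lam D * z i)) F =
      sp lam δ * eval (Sum.elim y z) F := by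
  have h := eval_scale (wt2 m D n) hF lam (Sum.elim y z)
  rw [← h]
  congr 1
  refine congrArg _ ?_
  funext i
  rcases i with i | i
  · simp [scl, wt, wt2, sp_single]
  · simp [wt2]

theorem ev_scl {D : Fin r → ℕ} {G : Polynomial (MvPolynomial (Sig m) K)} {t : ℕ}
    (hG : MonicMH D G t) (lam : Fin r → K) (y : Sig m → K) (z : K) :
    ev G (scl lam y) (sp lam D * z) = sp lam D ^ t * ev G y z := by
  have h := eval_scl2 (gz_hom (n := 0) hG 0) lam y (fun _ => z)
  rw [eval_gz, eval_gz, sp_nsmul] at h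
  exact h

theorem rel_scl {lam : Fin r → K} (h : ∀ κ, lam κ ≠ 0) {y : Sig m → K} (hy : Rel y) :
    Rel (scl lam y) := by
  intro κ
  obtain ⟨i, hi⟩ := hy κ
  exact ⟨i, mul_ne_zero (h κ) hi⟩

end Pool.Agent.W476.TP
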