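import Pool.Agent.H88.L.W476.TP.Base2

/-!
# Project TP: lemmas for the assembly
-/

set_option autoImplicit false

namespace Pool.Agent.W476.TP

open MvPolynomial

/-- boundedness and Lipschitz property of a polynomial on the unit polydisc -/
theorem exists_lip {C : Type} [NormedField C] [IsUltrametricDist C] {σ : Type} [Fintype σ]
    (P : MvPolynomial σ C) : ∃ A : ℝ, 0 ≤ A ∧ (∀ x : σ → C, (∀ i, ‖x i‖ ≤ 1) → ‖eval x P‖ ≤ A) ∧
      ∀ (x x' : σ → C) (η : ℝ), (∀ i, ‖x i‖ ≤ 1) → (∀ i, ‖x' i‖ ≤ 1) →
        (∀ i, ‖x i - x' i‖ ≤ η) → 0 ≤ η → ‖eval x P - eval x' P‖ ≤ A * η := by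
  induction P using MvPolynomial.induction_on with
  | C a =>
    refine ⟨‖a‖, norm_nonneg _, ?_, ?_⟩
    · intro x _; rw [eval_C]
    · intro x x' η _ _ _ h
      rw [eval_C, eval_C, sub_self, norm_zero]
      positivity
  | add P Q hP hQ =>
    obtain ⟨A, hA, hA1, hA2⟩ := hP
    obtain ⟨B, hB, hB1, hB2⟩ := hQ
    refine ⟨A + B, by positivity, ?_, ?_⟩
    · intro x hx
      rw [map_add]
      exact (norm_add_le _ _).trans (add_le_add (hA1 x hx) (hB1 x hx))
    · intro x x' η h1 h2 h3 h4
      rw [map_add, map_add, add_mul]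
      have : eval x P + eval x Q - (eval x' P + eval x' Q) =
        (eval x P - eval x' P) + (eval x Q - eval x' Q) := by ring
      rw [this]
      exact (norm_add_le _ _).trans (add_le_add (hA2 x x' η h1 h2 h3 h4) (hB2 x x' η h1 h2 h3 h4))
  | mul_X P i hP =>
    obtain ⟨A, hA, hA1, hA2⟩ := hP
    refine ⟨A + A, by positivity, ?_, ?_⟩
    · intro x hx
      rw [map_mul, eval_X, norm_mul]
      have h1 : ‖eval x P‖ * ‖x i‖ ≤ A * 1 :=
        mul_le_mul (hA1 x hx) (hx i) (norm_nonneg _) hA
      linarith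
    · intro x x' η h1 h2 h3 h4
      rw [map_mul, map_mul, eval_X, eval_X]
      have : eval x P * x i - eval x' P * x' i =
        (eval x P - eval x' P) * x i + eval x' P * (x i - x' i) := by ring
      rw [this, add_mul]
      refine (norm_add_le _ _).trans (add_le_add ?_ ?_)
      · rw [norm_mul]
        have := mul_le_mul (hA2 x x' η h1 h2 h3 h4) (h1 i) (norm_nonneg _) (by positivity)
        linarith
      · rw [norm_mul]
        exact mul_le_mul (hA1 x' h2) (h3 i) (norm_nonneg _) hA

/-- a small nonzero scalar makes all coefficients of norm at most one -/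
theorem exists_scale {C : Type} [NormedField C] {t : C} (ht0 : t ≠ 0) (ht : ‖t‖ < 1)
    {σ J : Type} [Fintype J] (q : J → MvPolynomial σ C) :
    ∃ s : C, s ≠ 0 ∧ ∀ j α, ‖s * (q j).coeff α‖ ≤ 1 := by
  classical
  obtain ⟨B, hB0, hB⟩ : ∃ B : ℝ, 0 < B ∧ ∀ j α, ‖(q j).coeff α‖ ≤ B := by
    refine ⟨1 + ∑ j, ∑ α ∈ (q j).support, ‖(q j).coeff α‖, by positivity, ?_⟩
    intro j α
    by_cases h : α ∈ (q j).support
    · have h1 : ‖(q j).coeff α‖ ≤ ∑ α ∈ (q j).support, ‖(q j).coeff α‖ :=
        Finset.single_le_sum (f := fun α => ‖(q j).coeff α‖) (fun _ _ => norm_nonneg _) h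
      have h2 : (∑ α ∈ (q j).support, ‖(q j).coeff α‖) ≤
          ∑ j, ∑ α ∈ (q j).support, ‖(q j).coeff α‖ :=
        Finset.single_le_sum (f := fun j => ∑ α ∈ (q j).support, ‖(q j).coeff α‖)
          (fun _ _ => Finset.sum_nonneg fun _ _ => norm_nonneg _) (Finset.mem_univ j)
      linarith
    · rw [notMem_support_iff.1 h, norm_zero]
      positivity
  obtain ⟨k, hk⟩ := exists_pow_lt_of_lt_one (show (0 : ℝ) < B⁻¹ by positivity) ht
  refine ⟨t ^ k, pow_ne_zero _ ht0, fun j α => ?_⟩
  rw [norm_mul, norm_pow]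
  calc ‖t‖ ^ k * ‖(q j).coeff α‖ ≤ B⁻¹ * B :=
        mul_le_mul hk.le (hB j α) (norm_nonneg _) (by positivity)
    _ = 1 := inv_mul_cancel₀ hB0.ne'

theorem MH_C_mul {K : Type} [Field K] {r : ℕ} {m : Fin r → ℕ} {F : MvPolynomial (Sig m) K}
    {d : Fin r → ℕ} (hF : MH F d) (s : K) : MH (C s * F) d := by
  have := (isWeightedHomogeneous_C (wt m) s).mul hF
  rwa [zero_add] at this

theorem eval_smul_hom {K : Type} [Field K] {n : ℕ} {P : MvPolynomial (Fin (n + 1)) K} {k : ℕ}
    (hP : P.IsHomogeneous k) (u : K) (x : Fin (n + 1) → K) :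
    eval (fun i => u * x i) P = u ^ k * eval x P := by
  rw [eval_eq', eval_eq', Finset.mul_sum]
  refine Finset.sum_congr rfl fun α hα => ?_
  have h1 : ∑ i, α i = k := by
    have := hP (mem_support_iff.1 hα)
    rw [← this, Finsupp.weight_apply, Finsupp.sum_fintype _ _ (fun i => by simp)]
    simp
  have h2 : ∏ i, (u * x i) ^ α i = u ^ k * ∏ i, x i ^ α i := by
    simp only [mul_pow, Finset.prod_mul_distrib]
    rw [Finset.prod_pow_eq_pow_sum, h1]
  rw [h2]
  ring

/-- the ideal of the image is homogeneous -/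
theorem imIdeal_hom {K : Type} [Field K] [IsAlgClosed K] {r c n : ℕ} {m : Fin r → ℕ}
    {g : Fin c → MvPolynomial (Sig m) K} {a : Fin c → Fin r → ℕ} (hg : ∀ j, MH (g j) (a j))
    {f : Fin (n + 1) → MvPolynomial (Sig m) K} {D : Fin r → ℕ} (hf : ∀ i, MH (f i) D)
    (hD : D ≠ 0) : HomI (imIdeal g f) := by
  classical
  obtain ⟨κ, hκ⟩ : ∃ κ, D κ ≠ 0 := by
    by_contra h
    push Not at h
    exact hD (funext h)
  intro P hP k y hy1 hy2
  -- all multiples `u • f y` are zeros of `P`
  have h1 : ∀ u : K, u ≠ 0 → eval (fun i => u * eval y (f i)) P = 0 := by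
    intro u hu
    obtain ⟨v, hv⟩ := IsAlgClosed.exists_pow_nat_eq u (Nat.pos_of_ne_zero hκ)
    have hv0 : v ≠ 0 := by
      rintro rfl
      rw [zero_pow hκ] at hv
      exact hu hv.symm
    set lam : Fin r → K := Function.update 1 κ v with hlam
    have hl : ∀ κ', lam κ' ≠ 0 := by
      intro κ'
      rw [hlam, Function.update_apply]
      split_ifs
      · exact hv0
      · exact one_ne_zero
    have hsp : sp lam D = u := by
      unfold sp
      rw [Finset.prod_eq_single κ]
      · rw [hlam, Function.update_self, hv]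
      · intro b _ hb
        rw [hlam, Function.update_of_ne hb, Pi.one_apply, one_pow]
      · simp
    have h2 := hP (scl lam y) (rel_scl hl hy1) (fun j => by rw [eval_scl (hg j), hy2 j, mul_zero])
    have h3 : (fun i => eval (scl lam y) (f i)) = fun i => u * eval y (f i) := by
      funext i
      rw [eval_scl (hf i), hsp]
    rwa [h3] at h2
  -- the polynomial in `u`
  set v : Fin (n + 1) → K := fun i => eval y (f i) with hv
  have h4 : ∀ u : K, eval (fun i => u * v i) P =
      ∑ k ∈ Finset.range (P.totalDegree + 1), u ^ k * eval v (homogeneousComponent k P) := by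
    intro u
    conv_lhs => rw [← sum_homogeneousComponent P]
    rw [map_sum]
    refine Finset.sum_congr rfl fun k _ => ?_
    exact eval_smul_hom (homogeneousComponent_isHomogeneous k P) u v
  set R : Polynomial K := ∑ k ∈ Finset.range (P.totalDegree + 1),
    Polynomial.C (eval v (homogeneousComponent k P)) * Polynomial.X ^ k with hR
  have h5 : R = 0 := by
    refine Polynomial.eq_zero_of_infinite_isRoot R ?_
    have : Set.Infinite {u : K | u ≠ 0} := (Set.finite_singleton (0 : K)).infinite_compl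
    refine this.mono fun u hu => ?_
    change Polynomial.IsRoot R u
    rw [Polynomial.IsRoot, hR, Polynomial.eval_finsetSum]
    have h6 := h1 u hu
    rw [h4] at h6
    rw [← h6]
    refine Finset.sum_congr rfl fun k _ => ?_
    rw [Polynomial.eval_mul, Polynomial.eval_C, Polynomial.eval_pow, Polynomial.eval_X, mul_comm]
  by_cases hk : k < P.totalDegree + 1
  · have h7 : R.coeff k = eval v (homogeneousComponent k P) := by
      rw [hR, Polynomial.finsetSum_coeff, Finset.sum_eq_single k]
      · rw [Polynomial.coeff_C_mul, Polynomial.coeff_X_pow_self, mul_one]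
      · intro b _ hb
        rw [Polynomial.coeff_C_mul, Polynomial.coeff_X_pow, if_neg (Ne.symm hb), mul_zero]
      · intro h; exact absurd (Finset.mem_range.2 hk) h
    rw [← h7, h5, Polynomial.coeff_zero]
  · rw [homogeneousComponent_eq_zero k P (by omega), map_zero]

end Pool.Agent.W476.TP
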