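import Pool.Agent.H88.L.W476.TP.Asm1

/-!
# Project TP: assembly
-/

set_option autoImplicit false

namespace Pool.Agent.W476.TP

open MvPolynomial

/-- closeness of `P (x)` to `P (f y)`, which vanishes on the zero set -/
theorem close_one {C : Type} [NormedField C] [IsUltrametricDist C] [IsAlgClosed C] (hVAN : S_VAN)
    {r c n : ℕ} {m : Fin r → ℕ} (g : Fin c → MvPolynomial (Sig m) C)
    (f : Fin (n + 1) → MvPolynomial (Sig m) C) (hf1 : ∀ i α, ‖(f i).coeff α‖ ≤ 1)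
    (P : MvPolynomial (Fin (n + 1)) C)
    (hP : ∀ y : Sig m → C, Rel y → (∀ j, eval y (g j) = 0) →
      eval (fun i => eval y (f i)) P = 0) (ε : ℝ) (hε : 0 < ε) :
    ∃ η : ℝ, 0 < η ∧ ∀ (y : Sig m → C) (x : Fin (n + 1) → C), Nrm y →
      (∀ j, ‖eval y (g j)‖ ≤ η) → (∀ i, ‖x i‖ ≤ 1) → (∀ i, ‖x i - eval y (f i)‖ ≤ η) →
      ‖eval x P‖ ≤ ε := by
  have hfb : ∀ i (y : Sig m → C), (∀ i, ‖y i‖ ≤ 1) → ‖eval y (f i)‖ ≤ 1 := by
    intro i y hy
    rw [eval_eq']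
    refine IsUltrametricDist.norm_sum_le_of_forall_le_of_nonneg zero_le_one fun α _ => ?_
    rw [norm_mul, norm_prod]
    refine mul_le_one₀ (hf1 i α) (Finset.prod_nonneg fun _ _ => norm_nonneg _) ?_
    refine Finset.prod_le_one (fun _ _ => norm_nonneg _) fun j _ => ?_
    rw [norm_pow]
    exact pow_le_one₀ (norm_nonneg _) (hy j)
  obtain ⟨δ, hδ, h1⟩ := hVAN C m (Fin c) g (bind₁ f P) (by
    intro y hy hy2
    rw [← hP y hy hy2, ← aeval_eq_eval, ← aeval_eq_eval, aeval_bind₁]) (ε / 2) (by positivity)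
  obtain ⟨A, hA, hA1, hA2⟩ := exists_lip P
  refine ⟨min δ (ε / (2 * (A + 1))), by positivity, ?_⟩
  intro y x hy hg hx hxf
  have h2 := h1 y hy (fun j => (hg j).trans (min_le_left _ _))
  have h3 : eval y (bind₁ f P) = eval (fun i => eval y (f i)) P := by
    rw [← aeval_eq_eval, ← aeval_eq_eval, aeval_bind₁]
  rw [h3] at h2
  have h4 := hA2 x (fun i => eval y (f i)) (ε / (2 * (A + 1))) hx
    (fun i => hfb i y hy.1) (fun i => (hxf i).trans (min_le_right _ _)) (by positivity)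
  have h5 : A * (ε / (2 * (A + 1))) ≤ ε / 2 := by
    rw [mul_div_assoc', div_le_div_iff₀ (by positivity) (by positivity)]
    nlinarith
  calc ‖eval x P‖ = ‖(eval x P - eval (fun i => eval y (f i)) P) +
        eval (fun i => eval y (f i)) P‖ := by rw [sub_add_cancel]
    _ ≤ ε / 2 + ε / 2 := (norm_add_le _ _).trans (add_le_add (h4.trans h5) h2)
    _ = ε := by ring

/-- the linear form with given coefficients -/
noncomputable def lf {K : Type} [Field K] {n : ℕ} (l : Fin (n + 1) → K) :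
    MvPolynomial (Fin (n + 1)) K := ∑ i, C (l i) * X i

theorem eval_lf {K : Type} [Field K] {n : ℕ} (l x : Fin (n + 1) → K) :
    eval x (lf l) = ∑ i, l i * x i := by
  simp [lf]

theorem coeff_lf {C : Type} [NormedField C] [IsUltrametricDist C] {n : ℕ}
    {l : Fin (n + 1) → C} (hl : ∀ i, ‖l i‖ ≤ 1) (α : Fin (n + 1) →₀ ℕ) :
    ‖(lf l).coeff α‖ ≤ 1 := by
  classical
  unfold lf
  rw [coeff_sum]
  refine IsUltrametricDist.norm_sum_le_of_forall_le_of_nonneg zero_le_one fun i _ => ?_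
  rw [coeff_C_mul, coeff_X, norm_mul]
  split_ifs
  · rw [norm_one, mul_one]; exact hl i
  · rw [norm_zero, mul_zero]; exact zero_le_one

theorem lf_hom {K : Type} [Field K] {n : ℕ} (l : Fin (n + 1) → K) :
    (lf l).IsHomogeneous 1 := by
  unfold lf
  refine IsHomogeneous.sum _ _ _ fun i _ => ?_
  have := (isHomogeneous_C (Fin (n + 1)) (l i)).mul (isHomogeneous_X K i)
  rwa [zero_add] at this

theorem MAIN_core {p : ℕ} [Fact p.Prime] {C L : Type} [NormedField C] [IsUltrametricDist C]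
    [IsAlgClosed C] [Field L] [CharP L p] [IsAlgClosed L] (S : Sharp p C L)
    (hp0 : 0 < ‖(p : C)‖) (hp1 : ‖(p : C)‖ < 1)
    (hAPP : S_APP) (hMON : S_MON) (hVAN : S_VAN) (hPT : S_PT)
    {r c n : ℕ} (m : Fin r → ℕ) (g : Fin c → MvPolynomial (Sig m) C)
    (a : Fin c → Fin r → ℕ) (hg : ∀ j, MH (g j) (a j)) (hg1 : ∀ j α, ‖(g j).coeff α‖ ≤ 1)
    (f : Fin (n + 1) → MvPolynomial (Sig m) C) (D : Fin r → ℕ) (hf : ∀ i, MH (f i) D)
    (hf1 : ∀ i α, ‖(f i).coeff α‖ ≤ 1) (hD : D ≠ 0)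
    (δ1 : ℝ) (hδ1 : 0 < δ1)
    (hδ : ∀ y : Sig m → C, Nrm y → (∃ j, δ1 ≤ ‖eval y (g j)‖) ∨ ∃ i, δ1 ≤ ‖eval y (f i)‖)
    (Q : Finset (MvPolynomial (Fin (n + 1)) C))
    (hQ : ∀ P ∈ Q, ∀ y : Sig m → C, Rel y → (∀ j, eval y (g j) = 0) →
      eval (fun i => eval y (f i)) P = 0) (ε δ2 : ℝ) (hε : 0 < ε) (hδ2 : 0 < δ2) :
    ∃ (N : ℕ) (H : Fin c → MvPolynomial (Sig m) L) (s : Fin c → ℕ)
      (G : Fin (n + 1) → Polynomial (MvPolynomial (Sig m) L)) (t : Fin (n + 1) → ℕ),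
      ‖(p : C)‖ ^ N ≤ δ2 ∧ (∀ j, MH (H j) (p ^ s j • a j)) ∧ (∀ i, MonicMH D (G i) (t i)) ∧
      ∀ (y : Sig m → L) (z : Fin (n + 1) → L), Rel y → (∀ j, eval y (H j) = 0) →
        (∀ i, ev (G i) y (z i) = 0) →
        ∃ b : L, b ≠ 0 ∧ (∀ i, ‖S.sh (b * z i)‖ ≤ 1) ∧ (∃ i, δ1 ≤ ‖S.sh (b * z i)‖) ∧
          ∀ P ∈ Q, ‖eval (fun i => S.sh (b * z i)) P‖ ≤ ε := by
  classical
  have h1 : ∀ P ∈ Q, ∃ η : ℝ, 0 < η ∧ ∀ (y : Sig m → C) (x : Fin (n + 1) → C), Nrm y →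
      (∀ j, ‖eval y (g j)‖ ≤ η) → (∀ i, ‖x i‖ ≤ 1) → (∀ i, ‖x i - eval y (f i)‖ ≤ η) →
      ‖eval x P‖ ≤ ε := fun P hP => close_one hVAN g f hf1 P (hQ P hP) ε hε
  choose! η hη1 hη2 using h1
  -- a common `N`
  obtain ⟨θ, hθ0, hθ⟩ : ∃ θ : ℝ, 0 < θ ∧ ∀ P ∈ Q, θ ≤ η P := by
    have hfin : ∀ R : Finset (MvPolynomial (Fin (n + 1)) C), (∀ P ∈ R, 0 < η P) →
        ∃ θ : ℝ, 0 < θ ∧ ∀ P ∈ R, θ ≤ η P := by
      intro R
      induction R using Finset.induction_on with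
      | empty => intro _; exact ⟨1, one_pos, by simp⟩
      | insert P R hPR ih =>
        intro h
        obtain ⟨θ, h1, h2⟩ := ih (fun P' hP' => h P' (Finset.mem_insert_of_mem hP'))
        refine ⟨min θ (η P), lt_min h1 (h P (Finset.mem_insert_self _ _)), ?_⟩
        intro P' hP'
        rcases Finset.mem_insert.1 hP' with rfl | hP'
        · exact min_le_right _ _
        · exact (min_le_left _ _).trans (h2 P' hP')
    exact hfin Q hη1
  obtain ⟨N0, hN0⟩ := exists_pow_lt_of_lt_one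
    (show (0 : ℝ) < min (min δ1 δ2) θ from lt_min (lt_min hδ1 hδ2) hθ0) hp1
  set N := N0 + 1 with hN
  have hNle : ‖(p : C)‖ ^ N < min (min δ1 δ2) θ :=
    lt_of_le_of_lt (pow_le_pow_of_le_one hp0.le hp1.le (Nat.le_succ _)) hN0
  have hN1 : ‖(p : C)‖ ^ N < δ1 := hNle.trans_le ((min_le_left _ _).trans (min_le_left _ _))
  have hN2 : ‖(p : C)‖ ^ N < δ2 := hNle.trans_le ((min_le_left _ _).trans (min_le_right _ _))
  have hN3 : ‖(p : C)‖ ^ N < θ := hNle.trans_le (min_le_right _ _)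
  have hH := fun j => hAPP p C L S hp0 hp1 (Sig m) (Fin r → ℕ) (wt m) (a j) (g j) (hg j)
    (hg1 j) N
  choose s H hH1 hH2 using hH
  have hG := fun i => hMON p C L S hp0 hp1 m D hD (f i) (hf i) (hf1 i) N (Nat.succ_pos _)
  choose t G hG1 hG2 using hG
  refine ⟨N, H, s, G, t, hN2.le, hH1, hG1, ?_⟩
  intro y z hy hyH hyG
  obtain ⟨b, y', hb, hy', hz, h2, h3⟩ := hPT p C L S hp0 hp1 m D hD N (Nat.succ_pos _) g f hf hf1
    H (fun j => p ^ s j • a j) hH1 hH2 G t hG1 hG2 y z hy hyH hyG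
  refine ⟨b, hb, hz, ?_, ?_⟩
  · rcases hδ _ hy' with ⟨j, hj⟩ | ⟨i, hi⟩
    · exact absurd (hj.trans (h2 j)) (not_le.2 hN1)
    · refine ⟨i, ?_⟩
      by_contra hlt
      push Not at hlt
      have h4 : ‖eval (fun i => S.sh (y' i)) (f i)‖ ≤
          max ‖S.sh (b * z i)‖ ‖S.sh (b * z i) - eval (fun i => S.sh (y' i)) (f i)‖ := by
        have h5 : eval (fun i => S.sh (y' i)) (f i) =
          S.sh (b * z i) - (S.sh (b * z i) - eval (fun i => S.sh (y' i)) (f i)) := by ring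
        conv_lhs => rw [h5, sub_eq_add_neg]
        refine (IsUltrametricDist.norm_add_le_max _ _).trans ?_
        rw [norm_neg]
      have h6 : max ‖S.sh (b * z i)‖ ‖S.sh (b * z i) - eval (fun i => S.sh (y' i)) (f i)‖ < δ1 :=
        max_lt hlt (lt_of_le_of_lt (h3 i) hN1)
      exact absurd (hi.trans (h4.trans h6.le)) (by
        intro h7
        exact absurd (lt_of_le_of_lt (hi.trans h4) h6) (lt_irrefl _))
  · intro P hP
    refine hη2 P hP _ _ hy' (fun j => (h2 j).trans (hN3.le.trans (hθ P hP))) hz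
      (fun i => (h3 i).trans (hN3.le.trans (hθ P hP)))

end Pool.Agent.W476.TP
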