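import Pool.Agent.H88.L.W476.TP.Asm2

/-!
# Project TP: the approximation theorem for an abstract sharp map
-/

set_option autoImplicit false

namespace Pool.Agent.W476.TP

open MvPolynomial

/-- rescaling of an estimate for a form -/
theorem close_hom {p : ℕ} {C L : Type} [NormedField C] [Field L] (S : Sharp p C L) {n k B : ℕ}
    {P : MvPolynomial (Fin (n + 1)) C} (hP : P.IsHomogeneous k) (hk : k ≤ B) {ε δ1 : ℝ}
    (hε : 0 < ε) (hδ1 : 0 < δ1) (hδ1' : δ1 ≤ 1) {b : L} (hb : b ≠ 0)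
    {z : Fin (n + 1) → L}
    (h1 : ‖eval (fun i => S.sh (b * z i)) P‖ ≤ ε * δ1 ^ B) {i : Fin (n + 1)}
    (hi : δ1 ≤ ‖S.sh (b * z i)‖) :
    ‖eval (fun i => S.sh (z i)) P‖ ≤ ε * ‖S.sh (z i)‖ ^ k := by
  have h2 : (fun i => S.sh (b * z i)) = fun i => S.sh b * S.sh (z i) := by
    funext i; rw [map_mul]
  rw [h2, eval_smul_hom hP, norm_mul, norm_pow] at h1
  rw [map_mul, norm_mul] at hi
  have hb' : 0 < ‖S.sh b‖ := norm_pos_iff.2 ((map_ne_zero S.sh).2 hb)
  have h3 : δ1 ^ B ≤ δ1 ^ k := pow_le_pow_of_le_one hδ1.le hδ1' hk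
  have h4 : δ1 ^ k ≤ (‖S.sh b‖ * ‖S.sh (z i)‖) ^ k := pow_le_pow_left₀ hδ1.le hi k
  have h5 : ‖S.sh b‖ ^ k * ‖eval (fun i => S.sh (z i)) P‖ ≤
      ‖S.sh b‖ ^ k * (ε * ‖S.sh (z i)‖ ^ k) := by
    calc _ ≤ ε * δ1 ^ B := h1
      _ ≤ ε * (‖S.sh b‖ * ‖S.sh (z i)‖) ^ k :=
        mul_le_mul_of_nonneg_left (h3.trans h4) hε.le
      _ = _ := by rw [mul_pow]; ring
  exact le_of_mul_le_mul_left h5 (pow_pos hb' k)

theorem dim_aux {x : WithBot ℕ∞} {e : ℕ} (h : x < ((e + 1 : ℕ) : WithBot ℕ∞)) :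
    x ≤ ((e : ℕ) : WithBot ℕ∞) := by
  induction x using WithBot.recBotCoe with
  | bot => exact bot_le
  | coe x =>
    have h1 : x < ((e + 1 : ℕ) : ℕ∞) := by exact_mod_cast h
    have h2 : x ≤ ((e : ℕ) : ℕ∞) := by
      push_cast at h1
      exact ENat.lt_natCast_add_one_iff.1 h1
    exact_mod_cast h2

theorem t_MAIN (hAPP : S_APP) (hMON : S_MON) (hEXC : S_EXC) (hCLO : S_CLO) (hDL : S_DL)
    (hDU : S_DU) (hNZ : S_NZ) (hVAN : S_VAN) (hUP : S_UP) (hPT : S_PT) : S_MAIN := by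
  classical
  intro p _ C L _ _ _ _ _ _ S hp0 hp1 r c n e m g a hg f D hf hD hbpf τ hτ1 hτ2 hτ3 hdim ε hε
    Q hQ hQh
  have hpC : (p : C) ≠ 0 := norm_pos_iff.1 hp0
  -- scaling
  obtain ⟨s, hs0, hs⟩ := exists_scale hpC hp1 (Sum.elim g f)
  set g' : Fin c → MvPolynomial (Sig m) C := fun j => MvPolynomial.C s * g j with hg'
  set f' : Fin (n + 1) → MvPolynomial (Sig m) C := fun i => MvPolynomial.C s * f i with hf'
  have hg'h : ∀ j, MH (g' j) (a j) := fun j => MH_C_mul (hg j) s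
  have hf'h : ∀ i, MH (f' i) D := fun i => MH_C_mul (hf i) s
  have hg'1 : ∀ j α, ‖(g' j).coeff α‖ ≤ 1 := by
    intro j α
    rw [hg']
    simp only [coeff_C_mul]
    exact hs (Sum.inl j) α
  have hf'1 : ∀ i α, ‖(f' i).coeff α‖ ≤ 1 := by
    intro i α
    rw [hf']
    simp only [coeff_C_mul]
    exact hs (Sum.inr i) α
  have hg'0 : ∀ y : Sig m → C, (∀ j, eval y (g' j) = 0) ↔ ∀ j, eval y (g j) = 0 := by
    intro y
    refine forall_congr' fun j => ?_
    rw [hg']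
    simp only [map_mul, eval_C]
    rw [mul_eq_zero, or_iff_right hs0]
  -- lower bound
  obtain ⟨δ0, hδ0, hδ0'⟩ := hNZ C m (Fin c ⊕ Fin (n + 1)) (Sum.elim g' f') (by
    intro y hy
    by_cases h : ∀ j, eval y (g' j) = 0
    · obtain ⟨i, hi⟩ := hbpf y hy ((hg'0 y).1 h)
      refine ⟨Sum.inr i, ?_⟩
      rw [Sum.elim_inr, hf']
      simp only [map_mul, eval_C]
      exact mul_ne_zero hs0 hi
    · push Not at h
      obtain ⟨j, hj⟩ := h
      exact ⟨Sum.inl j, hj⟩)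
  set δ1 : ℝ := min δ0 1 with hδ1d
  have hδ1 : 0 < δ1 := lt_min hδ0 one_pos
  have hδ1' : δ1 ≤ 1 := min_le_right _ _
  have hδ : ∀ y : Sig m → C, Nrm y →
      (∃ j, δ1 ≤ ‖eval y (g' j)‖) ∨ ∃ i, δ1 ≤ ‖eval y (f' i)‖ := by
    intro y hy
    obtain ⟨j | i, hj⟩ := hδ0' y hy
    · exact Or.inl ⟨j, (min_le_left _ _).trans hj⟩
    · exact Or.inr ⟨i, (min_le_left _ _).trans hj⟩
  -- linear forms
  have hI0 : HomI (imIdeal g f) := imIdeal_hom hg hf hD
  obtain ⟨l, hl⟩ := hDL C n (e + 1) (imIdeal g f) hI0 hdim.le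
  obtain ⟨u, hu0, hu⟩ := exists_scale hpC hp1
    (fun x : Fin (e + 1) × Fin (n + 1) => (MvPolynomial.C (l x.1 x.2) : MvPolynomial (Fin 1) C))
  set l' : Fin (e + 1) → Fin (n + 1) → C := fun k i => u * l k i with hl'
  have hl'1 : ∀ k i, ‖l' k i‖ ≤ 1 := by
    intro k i
    have := hu (k, i) 0
    rwa [coeff_zero_C] at this
  obtain ⟨Q0, δ2, hδ2, hQ0, hQ0'⟩ := hUP C n (e + 1) (imIdeal g f) hI0 l' (by
    intro x hx hx2
    refine hl x hx fun k => ?_
    have h1 := hx2 k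
    rw [hl'] at h1
    simp only [mul_assoc] at h1
    rw [← Finset.mul_sum, mul_eq_zero, or_iff_right hu0] at h1
    exact h1)
  set QQ := Q ∪ Q0 with hQQ
  set B := QQ.sup totalDegree with hB
  have hQQh : ∀ P ∈ QQ, P ∈ imIdeal g f ∧ ∃ k, P.IsHomogeneous k := by
    intro P hP
    rcases Finset.mem_union.1 hP with h | h
    · exact ⟨hQ P h, hQh P h⟩
    · exact hQ0 P h
  obtain ⟨N, H, s', G, t, hN, hH, hG, hcore⟩ := MAIN_core S hp0 hp1 hAPP hMON hVAN hPT m g' a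
    hg'h hg'1 f' D hf'h hf'1 hD δ1 hδ1 hδ QQ (by
      intro P hP y hy hy2
      obtain ⟨hP1, k, hk⟩ := hQQh P hP
      have h1 : (fun i => eval y (f' i)) = fun i => s * eval y (f i) := by
        funext i
        rw [hf']
        simp only [map_mul, eval_C]
      rw [h1, eval_smul_hom hk, hP1 y hy ((hg'0 y).1 hy2), mul_zero])
    (min ε δ2 * δ1 ^ B) δ2 (by positivity) hδ2
  have hz0 : ∀ y : Sig m → L, Rel y → (∀ j, eval y (H j) = 0) → ∃ i, ev (G i) y 0 ≠ 0 := by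
    intro y hy hy2
    by_contra hcon
    push Not at hcon
    obtain ⟨b, _, _, ⟨i, hi⟩, _⟩ := hcore y (fun _ => 0) hy hy2 hcon
    rw [mul_zero, map_zero, norm_zero] at hi
    exact absurd hi (not_le.2 hδ1)
  obtain ⟨I, hI, hI2⟩ := hCLO L m D hD G t hG H (fun j => p ^ s' j • a j) hH hz0
  -- estimates on the zero set
  have hest : ∀ (ε' : ℝ), 0 < ε' → min ε δ2 ≤ ε' → ∀ z : Fin (n + 1) → L, z ≠ 0 →
      (∀ P ∈ I, eval z P = 0) → ∃ i, z i ≠ 0 ∧ ∀ P ∈ QQ, P ≠ 0 → ∀ k, P.IsHomogeneous k →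
        ‖eval (fun i => S.sh (z i)) P‖ ≤ ε' * ‖S.sh (z i)‖ ^ k := by
    intro ε' hε' hmin z hz hzI
    obtain ⟨y, hy, hyH, hyG⟩ := (hI2 z hz).1 hzI
    obtain ⟨b, hb, _, ⟨i, hi⟩, h2⟩ := hcore y z hy hyH hyG
    refine ⟨i, ?_, ?_⟩
    · intro h0
      rw [h0, mul_zero, map_zero, norm_zero] at hi
      exact absurd hi (not_le.2 hδ1)
    intro P hP hP0 k hk
    have hkB : k ≤ B := by
      rw [← hk.totalDegree hP0]
      exact Finset.le_sup hP
    refine close_hom S hk hkB hε' hδ1 hδ1' hb ((h2 P hP).trans ?_) hi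
    exact mul_le_mul_of_nonneg_right hmin (pow_nonneg hδ1.le _)
  refine ⟨I, hI, le_antisymm ?_ ?_, ?_⟩
  · -- upper bound of the dimension
    have hP := fun k => hAPP p C L S hp0 hp1 (Fin (n + 1)) ℕ 1 1 (lf (l' k))
      (lf_hom (l' k)) (coeff_lf (hl'1 k)) N
    choose s'' P hP1 hP2 using hP
    have hP1' : ∀ k, (P k).IsHomogeneous (p ^ s'' k) := by
      intro k
      have := hP1 k
      rwa [smul_eq_mul, mul_one] at this
    refine hDU L n (e + 1) I hI P (fun k => p ^ s'' k)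
      (fun k => pow_pos (Fact.out : p.Prime).pos _) hP1' ?_
    intro x hxI hxP
    by_contra hx0
    obtain ⟨i1, hi1, h2⟩ := hest δ2 hδ2 (min_le_right _ _) x hx0 hxI
    -- the coordinate of maximal norm
    obtain ⟨i0, -, hi0⟩ := Finset.exists_max_image Finset.univ (fun i => ‖S.sh (x i)‖)
      ⟨i1, Finset.mem_univ _⟩
    have hi0' : ∀ i, ‖S.sh (x i)‖ ≤ ‖S.sh (x i0)‖ := fun i => hi0 i (Finset.mem_univ _)
    have hpos : 0 < ‖S.sh (x i0)‖ :=
      (norm_pos_iff.2 ((map_ne_zero S.sh).2 hi1)).trans_le (hi0' i1)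
    have hxi0 : x i0 ≠ 0 := by
      intro h
      rw [h, map_zero, norm_zero] at hpos
      exact lt_irrefl _ hpos
    set w : L := (x i0)⁻¹ with hw
    have hwn : ‖S.sh w‖ * ‖S.sh (x i0)‖ = 1 := by
      rw [← norm_mul, ← map_mul, hw, inv_mul_cancel₀ hxi0, map_one, norm_one]
    have hx' : ∀ i, ‖S.sh (w * x i)‖ ≤ 1 := by
      intro i
      rw [map_mul, norm_mul, ← hwn]
      exact mul_le_mul_of_nonneg_left (hi0' i) (norm_nonneg _)
    have hx'1 : ‖S.sh (w * x i0)‖ = 1 := by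
      rw [map_mul, norm_mul, hwn]
    obtain ⟨k, hk⟩ := hQ0' (fun i => S.sh (w * x i)) hx' ⟨i0, hx'1⟩ (by
      intro R hR
      by_cases hR0 : R = 0
      · rw [hR0, map_zero, norm_zero]; exact hδ2.le
      obtain ⟨_, k, hk⟩ := hQ0 R hR
      have h3 := h2 R (Finset.mem_union_right _ hR) hR0 k hk
      have h4 : (fun i => S.sh (w * x i)) = fun i => S.sh w * S.sh (x i) := by
        funext i; rw [map_mul]
      rw [h4, eval_smul_hom hk, norm_mul, norm_pow]
      calc ‖S.sh w‖ ^ k * ‖eval (fun i => S.sh (x i)) R‖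
          ≤ ‖S.sh w‖ ^ k * (δ2 * ‖S.sh (x i1)‖ ^ k) :=
            mul_le_mul_of_nonneg_left h3 (pow_nonneg (norm_nonneg _) _)
        _ ≤ ‖S.sh w‖ ^ k * (δ2 * ‖S.sh (x i0)‖ ^ k) := by
            refine mul_le_mul_of_nonneg_left ?_ (pow_nonneg (norm_nonneg _) _)
            exact mul_le_mul_of_nonneg_left
              (pow_le_pow_left₀ (norm_nonneg _) (hi0' i1) k) hδ2.le
        _ = δ2 * (‖S.sh w‖ * ‖S.sh (x i0)‖) ^ k := by rw [mul_pow]; ring
        _ = δ2 := by rw [hwn, one_pow, mul_one])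
    have h5 := hP2 k (fun i => w * x i) hx' (by
      rw [eval_smul_hom (hP1' k), hxP k, mul_zero])
    rw [eval_lf] at h5
    exact absurd (h5.trans hN) (not_le.2 hk)
  · -- lower bound of the dimension
    by_contra hlt
    rw [not_le] at hlt
    obtain ⟨l2, hl2⟩ := hDL L n e I hI (dim_aux hlt)
    have hlin : ∀ k, IsWeightedHomogeneous (wt2 m D n)
        (∑ i, MvPolynomial.C (l2 k i) * X (Sum.inr i) : MvPolynomial (Sig m ⊕ Fin (n + 1)) L) D := by
      intro k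
      refine IsWeightedHomogeneous.sum _ _ _ fun i _ => ?_
      have := (isWeightedHomogeneous_C (wt2 m D n) (l2 k i)).mul
        (isWeightedHomogeneous_X L (wt2 m D n) (Sum.inr i))
      rw [zero_add] at this
      exact this
    obtain ⟨y, z, hy, hyG, hyF⟩ := hEXC L m D hD G t hG (Fin c ⊕ Fin e)
      (Sum.elim (fun j => rename Sum.inl (H j)) (fun k => ∑ i, MvPolynomial.C (l2 k i) * X (Sum.inr i)))
      (Sum.elim (fun j => p ^ s' j • a j) (fun _ => D)) (by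
        rintro (j | k)
        · exact rename_hom (hH j) D n
        · exact hlin k) τ (by
        rintro (j | k)
        · simp only [Sum.elim_inl, Pi.smul_apply, smul_eq_mul]
          exact Nat.mul_pos (pow_pos (Fact.out : p.Prime).pos _) (hτ1 j)
        · exact hτ2 k) hτ3
    have hyH : ∀ j, eval y (H j) = 0 := by
      intro j
      have := hyF (Sum.inl j)
      rw [Sum.elim_inl, eval_rename, Sum.elim_comp_inl] at this
      exact this
    have hz : z ≠ 0 := by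
      intro hz
      obtain ⟨i, hi⟩ := hz0 y hy hyH
      apply hi
      have := hyG i
      rwa [hz] at this
    have hzI : ∀ P ∈ I, eval z P = 0 := (hI2 z hz).2 ⟨y, hy, hyH, hyG⟩
    apply hz
    refine hl2 z hzI fun k => ?_
    have := hyF (Sum.inr k)
    rw [Sum.elim_inr] at this
    simpa using this
  · intro z hz hzI P hP k hk
    by_cases hP0 : P = 0
    · refine ⟨0, ?_⟩
      rw [hP0, map_zero, norm_zero]
      positivity
    obtain ⟨i, _, hi⟩ := hest ε hε (min_le_left _ _) z hz hzI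
    exact ⟨i, hi P (Finset.mem_union_left _ hP) hP0 k hk⟩

end Pool.Agent.W476.TP
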