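import Pool.Agent.H88.L.W476.TP.Stm
import Pool.Agent.H88.L.W292.FM.Tilt

/-!
# Project TP: the tilt of `ℂ_[p]` as a field
-/

set_option autoImplicit false

namespace Pool.Agent.W476.TP

open MvPolynomial Pool.Agent.W292.FM

/-- The tilt of `ℂ_[p]`: the fraction field of the tilt of its ring of integers. -/
abbrev TF (p : ℕ) [Fact p.Prime] : Type := FractionRing (PreTilt 𝓞_ℂ_[p] p)

/-- The sharp map from the tilt to `ℂ_[p]`: quotients are sent to the quotients of the untilts. -/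
noncomputable def sharp {p : ℕ} [Fact p.Prime] (z : TF p) : ℂ_[p] :=
  ((IsLocalization.sec (nonZeroDivisors (PreTilt 𝓞_ℂ_[p] p)) z).1.untilt : ℂ_[p]) /
    (((IsLocalization.sec (nonZeroDivisors (PreTilt 𝓞_ℂ_[p] p)) z).2 :
      PreTilt 𝓞_ℂ_[p] p).untilt : ℂ_[p])

/-- TLT: the sharp map of `ℂ_[p]` is a complete sharp map. -/
def S_TLT : Prop :=
  ∀ (p : ℕ) [Fact p.Prime], CharP (TF p) p ∧ ∃ S : Sharp p ℂ_[p] (TF p),
    (∀ z, S.sh z = sharp z) ∧ Cpl S

end Pool.Agent.W476.TP
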